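import Pool.Agent.Q211.ZS.Gam

/-!
# The zero-one law for absolute convergence of the stable supremum series

The coefficients `a`, `b`, the terms `term` and the predicate `AbsConv` are defined in
`Pool.Agent.Q211.ZS.Gam`.
-/

set_option autoImplicit false

open MeasureTheory Filter Topology Set

namespace Pool.Agent.Results.MP_8ec8f8_pr.ZeroOneLaw

open Pool.Agent.Q211.ZS

theorem ae_gamma (α : ℝ) :
    ∀ᵐ ρ : ℝ, ∀ p : ℕ × ℕ, Real.Gamma (1 - ρ - (p.2 + 1 : ℕ) - p.1 / α) ≠ 0 := by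
  rw [ae_all_iff]
  intro p
  rw [ae_iff]
  have h1 : {ρ : ℝ | ¬ Real.Gamma (1 - ρ - (p.2 + 1 : ℕ) - p.1 / α) ≠ 0} ⊆
      Set.range fun m : ℕ => (1 : ℝ) - (p.2 + 1 : ℕ) - p.1 / α + m := by
    intro ρ hρ
    simp only [ne_eq, not_not, mem_ofPred_eq] at hρ
    obtain ⟨m, hm⟩ := (Real.Gamma_eq_zero_iff _).1 hρ
    refine ⟨m, ?_⟩
    simp only
    linarith
  exact measure_mono_null h1 ((Set.countable_range _).measure_zero volume)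

/-- There is a measurable set `C` which agrees with the set of absolute convergence up to a null
set and which satisfies the zero-one law. -/
theorem key {α : ℝ} (hα : α ∈ Ioo (0 : ℝ) 1 ∪ Ioo (1 : ℝ) 2) (hirr : Irrational α) :
    volume {ρ : ℝ | ρ ∈ Ioo (0 : ℝ) 1 ∧ AbsConv α ρ} = 0 ∨
      volume {ρ : ℝ | ρ ∈ Ioo (0 : ℝ) 1 ∧ ¬ AbsConv α ρ} = 0 := by
  have main : ∀ (w : ℕ × ℕ → ℝ) (e1 e2 : ℕ), (∀ p, 0 ≤ w p) → 0 < α →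
      (∀ᵐ ρ : ℝ, ρ ∈ Ioo (0 : ℝ) 1 → (AbsConv α ρ ↔ ρ ∈ Cset α w e1 e2)) →
      volume {ρ : ℝ | ρ ∈ Ioo (0 : ℝ) 1 ∧ AbsConv α ρ} = 0 ∨
      volume {ρ : ℝ | ρ ∈ Ioo (0 : ℝ) 1 ∧ ¬ AbsConv α ρ} = 0 := by
    intro w e1 e2 hw h0 hae
    rcases Cset_zero_one h0 hirr w hw e1 e2 with h | h
    · left
      have h2 : volume ((Cset α w e1 e2 ∩ Ioc 0 1) ∪
          {ρ : ℝ | ¬ (ρ ∈ Ioo (0 : ℝ) 1 → (AbsConv α ρ ↔ ρ ∈ Cset α w e1 e2))}) = 0 :=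
        measure_union_null h (ae_iff.1 hae)
      refine measure_mono_null ?_ h2
      intro ρ hρ
      by_cases h3 : ρ ∈ Ioo (0 : ℝ) 1 → (AbsConv α ρ ↔ ρ ∈ Cset α w e1 e2)
      · exact Or.inl ⟨(h3 hρ.1).1 hρ.2, hρ.1.1, hρ.1.2.le⟩
      · exact Or.inr h3
    · right
      have h2 : volume (((Cset α w e1 e2)ᶜ ∩ Ioc 0 1) ∪
          {ρ : ℝ | ¬ (ρ ∈ Ioo (0 : ℝ) 1 → (AbsConv α ρ ↔ ρ ∈ Cset α w e1 e2))}) = 0 :=
        measure_union_null h (ae_iff.1 hae)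
      refine measure_mono_null ?_ h2
      intro ρ hρ
      by_cases h3 : ρ ∈ Ioo (0 : ℝ) 1 → (AbsConv α ρ ↔ ρ ∈ Cset α w e1 e2)
      · exact Or.inl ⟨fun h4 => hρ.2 ((h3 hρ.1).2 h4), hρ.1.1, hρ.1.2.le⟩
      · exact Or.inr h3
  rcases hα with hα | hα
  · refine main (w1 α) 0 1 (w1_nonneg hirr) hα.1 ?_
    filter_upwards [ae_gamma α] with ρ hρ h
    exact conv_iff_1 hα.1 hα.2 hirr h.1 hρ
  · have h0 : 0 < α := by linarith [hα.1]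
    refine main (w2 α) 1 0 (fun p => (w2_pos h0 hirr p).le) h0 ?_
    exact Eventually.of_forall fun ρ h => conv_iff_2 hα.1 hα.2 hirr h.1 h.2

/-- For every irrational `α` in `(0,1) ∪ (1,2)`, the series converges absolutely for almost every
`ρ` in `(0,1)`, or fails to converge absolutely for almost every `ρ` in `(0,1)`. -/
theorem result :
    (∀ α : ℝ, Irrational α → α ∈ Ioo (0 : ℝ) 1 ∪ Ioo (1 : ℝ) 2 →
      (volume {ρ : ℝ | ρ ∈ Ioo (0 : ℝ) 1 ∧ AbsConv α ρ} = 0 ∧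
        volume {ρ : ℝ | ρ ∈ Ioo (0 : ℝ) 1 ∧ ¬ AbsConv α ρ} = 1) ∨
      (volume {ρ : ℝ | ρ ∈ Ioo (0 : ℝ) 1 ∧ AbsConv α ρ} = 1 ∧
        volume {ρ : ℝ | ρ ∈ Ioo (0 : ℝ) 1 ∧ ¬ AbsConv α ρ} = 0)) ∧
    ¬ ∃ α : ℝ, Irrational α ∧ α ∈ Ioo (0 : ℝ) 1 ∪ Ioo (1 : ℝ) 2 ∧
      0 < volume {ρ : ℝ | ρ ∈ Ioo (0 : ℝ) 1 ∧ AbsConv α ρ} ∧
      0 < volume {ρ : ℝ | ρ ∈ Ioo (0 : ℝ) 1 ∧ ¬ AbsConv α ρ} := by
  have h1 : volume (Ioo (0 : ℝ) 1) = 1 := by simp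
  constructor
  · intro α hirr hα
    have e1 : {ρ : ℝ | ρ ∈ Ioo (0 : ℝ) 1 ∧ ¬ AbsConv α ρ} =
        Ioo (0 : ℝ) 1 \ {ρ : ℝ | ρ ∈ Ioo (0 : ℝ) 1 ∧ AbsConv α ρ} := by
      ext ρ
      simp only [mem_ofPred_eq, Set.mem_sdiff, not_and]
      tauto
    have e2 : {ρ : ℝ | ρ ∈ Ioo (0 : ℝ) 1 ∧ AbsConv α ρ} =
        Ioo (0 : ℝ) 1 \ {ρ : ℝ | ρ ∈ Ioo (0 : ℝ) 1 ∧ ¬ AbsConv α ρ} := by
      ext ρ
      simp only [mem_ofPred_eq, Set.mem_sdiff, not_and, not_not]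
      tauto
    rcases key hα hirr with h | h
    · refine Or.inl ⟨h, ?_⟩
      rw [e1, measure_sdiff_null h, h1]
    · refine Or.inr ⟨?_, h⟩
      rw [e2, measure_sdiff_null h, h1]
  · rintro ⟨α, hirr, hα, h2, h3⟩
    rcases key hα hirr with h | h
    · exact h2.ne' h
    · exact h3.ne' h

end Pool.Agent.Results.MP_8ec8f8_pr.ZeroOneLaw
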